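import Pool.Agent.R550.CR.Poly

/-!
# Deciding `cr(G) ≤ k` is fixed-parameter tractable
-/

namespace Pool.Agent.Results.MP_3f5cd8_lc.ColourReversalFPT

open Pool.Agent.H633R2 Pool.Agent.R550.CRev

/-- Deciding whether `cr(G) ≤ k` (the graph `G` is given by its adjacency matrix, the number `k` in
binary) is fixed-parameter tractable in the parameter `k`; and `cr(G) ≥ |V(G)|` for every graph. -/
theorem result :
    IsFpt (fun x : List (List Bool) × ℕ => x.2) (fun x => cr (graphOf x.1) ≤ (x.2 : ℕ∞)) ∧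
      ∀ (V : Type) [Fintype V] (G : SimpleGraph V), (Fintype.card V : ℕ∞) ≤ cr G :=
  ⟨isFpt_cr, fun _ _ G => card_le_cr G⟩

end Pool.Agent.Results.MP_3f5cd8_lc.ColourReversalFPT
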